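import Pool.Agent.Lib.ED.All

open Filter MeasureTheory Topology
open Pool.Agent.Lib.MP_523900_gt

/-- There is a constant `C` such that for every convex body `K` in 3-space, with boundary `S` of
area `A`: `A` is finite, `ε * L_S(ε)` tends to `A / 2` as `ε` tends to `0` from above, and for
every `ε > 0` the number `L_S(ε)` is finite and
`A / (2 ε) - π ε / 2 ≤ L_S(ε) ≤ A / (2 ε) + C * diam K`. -/
theorem Pool.Agent.Results.MP_523900_gt.ErrorTerm.result :
    ∃ C : ℝ, 0 < C ∧ ∀ K : Set (EuclideanSpace ℝ (Fin 3)), Convex ℝ K → IsCompact K →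
      (interior K).Nonempty →
      Measure.euclideanHausdorffMeasure 2 (frontier K) < ⊤ ∧
      Tendsto (fun ε : ℝ => ENNReal.ofReal ε * shortestDense (frontier K) ε) (𝓝[>] 0)
        (𝓝 (Measure.euclideanHausdorffMeasure 2 (frontier K) / 2)) ∧
      ∀ ε : ℝ, 0 < ε → shortestDense (frontier K) ε < ⊤ ∧
        (Measure.euclideanHausdorffMeasure 2 (frontier K)).toReal / (2 * ε) - Real.pi * ε / 2 ≤
          (shortestDense (frontier K) ε).toReal ∧
        (shortestDense (frontier K) ε).toReal ≤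
          (Measure.euclideanHausdorffMeasure 2 (frontier K)).toReal / (2 * ε) +
            C * Metric.diam K := by
  obtain ⟨C, hC, h⟩ := Pool.Agent.Lib.ED.st_fin
  exact ⟨C, hC, fun K h1 h2 h3 =>
    ⟨(main h1 h2 h3).1, (main h1 h2 h3).2, fun ε hε => (h K h1 h2 h3 ε hε).2⟩⟩
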